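import Pool.Agent.Helper51.EA.Defs
import Pool.Agent.Helper84.EA.Mert
import Pool.Agent.Helper84.EA.Sm
import Pool.Agent.Helper1.EA.B6

/-! Block E8 (`vb_ge`) of project EA: the sum of the variances of the blocks from below. -/

set_option autoImplicit false

namespace Pool.Agent.Helper51.EA

open Finset Pool.Agent.Helper5.RM Pool.Agent.Helper5.RS

private lemma mem_Pb88 {y y' p : ℕ} : p ∈ Pb y y' ↔ (y < p ∧ p ≤ y') ∧ p.Prime := by
  simp [Pb]

private lemma mult_card88 (N d : ℕ) : (((Icc 1 N).filter (fun n => d ∣ n)).card : ℝ) ≤ N / d := by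
  have h : (Icc 1 N).filter (fun n => d ∣ n) = (Ioc 0 N).filter (fun n => d ∣ n) := by
    ext n; simp only [mem_filter, mem_Icc, mem_Ioc]; constructor <;> (rintro ⟨h1, h2⟩; exact ⟨by omega, h2⟩)
  rw [h, Nat.Ioc_filter_dvd_card_eq_div]
  exact Nat.cast_div_le

/-- the covering of the squarefree numbers -/
private lemma cover88 (N K : ℕ) (y : ℕ → ℕ) :
    (Icc 1 N).filter Squarefree ⊆
      (((Icc 1 N).filter (fun n => Squarefree n ∧ ∀ q ∈ n.primeFactors, q ≤ y 0)) ∪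
        ((Pb (y K) N).biUnion fun p => (Icc 1 N).filter (fun n => p ∣ n))) ∪
      (((range K).biUnion fun b => ((Pb (y b) (y (b + 1))) ×ˢ (Pb (y b) (y (b + 1)))).biUnion
          fun pq => (Icc 1 N).filter (fun n => pq.1 * pq.2 ∣ n)) ∪
        ((range K).biUnion fun b => (Pb (y b) (y (b + 1))).biUnion fun p =>
          (MG N (Sy N (y b)) p).image (fun m => p * m))) := by
  intro n hn
  rw [mem_filter, mem_Icc] at hn
  obtain ⟨⟨hn1, hnN⟩, hsq⟩ := hn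
  rw [mem_union, mem_union, mem_union]
  by_cases h1 : ∀ q ∈ n.primeFactors, q ≤ y 0
  · exact Or.inl (Or.inl (mem_filter.2 ⟨mem_Icc.2 ⟨hn1, hnN⟩, hsq, h1⟩))
  by_cases h2 : ∃ q ∈ n.primeFactors, y K < q
  · obtain ⟨q, hq, hqK⟩ := h2
    have hqp := Nat.prime_of_mem_primeFactors hq
    have hqd := Nat.dvd_of_mem_primeFactors hq
    refine Or.inl (Or.inr (mem_biUnion.2 ⟨q, ?_, mem_filter.2 ⟨mem_Icc.2 ⟨hn1, hnN⟩, hqd⟩⟩))
    exact mem_Pb88.2 ⟨⟨hqK, (Nat.le_of_dvd (by omega) hqd).trans hnN⟩, hqp⟩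
  push Not at h1 h2
  obtain ⟨q0, hq0, hq0y⟩ := h1
  have hne : n.primeFactors.Nonempty := ⟨q0, hq0⟩
  obtain ⟨p, hp, hpm⟩ := n.primeFactors.exists_max_image id hne
  simp only [id] at hpm
  have hpp := Nat.prime_of_mem_primeFactors hp
  have hpd := Nat.dvd_of_mem_primeFactors hp
  have hpy : y 0 < p := lt_of_lt_of_le hq0y (hpm q0 hq0)
  have hpK : p ≤ y K := h2 p hp
  have hex : ∃ b, p ≤ y b := ⟨K, hpK⟩
  obtain ⟨b', hb'1, hb'2⟩ : ∃ b', p ≤ y b' ∧ ∀ b < b', ¬ p ≤ y b :=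
    ⟨Nat.find hex, Nat.find_spec hex, fun b hb => Nat.find_min hex hb⟩
  have hb'K : b' ≤ K := by
    by_contra hlt
    exact hb'2 K (by omega) hpK
  obtain ⟨b, rfl⟩ : ∃ b, b' = b + 1 := by
    refine ⟨b' - 1, ?_⟩
    have : b' ≠ 0 := by rintro rfl; omega
    omega
  have hyb : y b < p := not_le.1 (hb'2 b (by omega))
  have hpPb : p ∈ Pb (y b) (y (b + 1)) := mem_Pb88.2 ⟨⟨hyb, hb'1⟩, hpp⟩
  obtain ⟨m, rfl⟩ := hpd
  have hm0 : m ≠ 0 := by rintro rfl; simp at hn1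
  have hcop : Nat.Coprime p m := Nat.coprime_of_squarefree_mul hsq
  have hsqm : Squarefree m := hsq.of_mul_right
  by_cases h3 : ∀ q ∈ m.primeFactors, q ≤ y b
  · refine Or.inr (Or.inr (mem_biUnion.2 ⟨b, mem_range.2 (by omega), mem_biUnion.2 ⟨p, hpPb, ?_⟩⟩))
    refine mem_image.2 ⟨m, ?_, rfl⟩
    have hmN : m ≤ N / p := (Nat.le_div_iff_mul_le hpp.pos).2 (by rw [mul_comm]; exact hnN)
    refine mem_filter.2 ⟨mem_Icc.2 ⟨by omega, hmN⟩, ?_, hsqm, fun q hq => ?_⟩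
    · refine mem_filter.2 ⟨mem_Icc.2 ⟨by omega, hmN.trans (Nat.div_le_self _ _)⟩, h3⟩
    · exact lt_of_le_of_lt (h3 q hq) hyb
  · push Not at h3
    obtain ⟨q, hq, hqy⟩ := h3
    have hqp := Nat.prime_of_mem_primeFactors hq
    have hqd := Nat.dvd_of_mem_primeFactors hq
    have hqn : q ∈ (p * m).primeFactors := Nat.mem_primeFactors.2 ⟨hqp, hqd.mul_left p, by positivity⟩
    have hqle := hpm q hqn
    refine Or.inr (Or.inl (mem_biUnion.2 ⟨b, mem_range.2 (by omega), mem_biUnion.2 ⟨(p, q), ?_, ?_⟩⟩))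
    · exact mem_product.2 ⟨hpPb, mem_Pb88.2 ⟨⟨hqy, hqle.trans hb'1⟩, hqp⟩⟩
    · exact mem_filter.2 ⟨mem_Icc.2 ⟨hn1, hnN⟩, Nat.mul_dvd_mul_left p hqd⟩

private lemma count88 (N K : ℕ) (y : ℕ → ℕ) :
    ((Pool.Agent.Helper11.RL.Qf N : ℕ) : ℝ) ≤
      ((((Icc 1 N).filter (fun n => Squarefree n ∧ ∀ q ∈ n.primeFactors, q ≤ y 0)).card : ℕ) : ℝ) +
      N * ∑ p ∈ Pb (y K) N, (1 : ℝ) / p + N * ∑ b ∈ range K, (∑ p ∈ Pb (y b) (y (b + 1)), (1 : ℝ) / p) ^ 2 +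
      ∑ b ∈ range K, 2 * vb N y b := by
  have h0 := (card_le_card (cover88 N K y)).trans
    ((card_union_le _ _).trans (add_le_add (card_union_le _ _) (card_union_le _ _)))
  have h1 : ((((Pb (y K) N).biUnion fun p => (Icc 1 N).filter (fun n => p ∣ n)).card : ℕ) : ℝ) ≤
      N * ∑ p ∈ Pb (y K) N, (1 : ℝ) / p := by
    refine (Nat.cast_le.2 card_biUnion_le).trans ?_
    rw [Nat.cast_sum, mul_sum]
    refine sum_le_sum fun p _ => ?_
    rw [mul_one_div]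
    exact mult_card88 N p
  have h2 : ((((range K).biUnion fun b => ((Pb (y b) (y (b + 1))) ×ˢ (Pb (y b) (y (b + 1)))).biUnion
          fun pq => (Icc 1 N).filter (fun n => pq.1 * pq.2 ∣ n)).card : ℕ) : ℝ) ≤
      N * ∑ b ∈ range K, (∑ p ∈ Pb (y b) (y (b + 1)), (1 : ℝ) / p) ^ 2 := by
    refine (Nat.cast_le.2 card_biUnion_le).trans ?_
    rw [Nat.cast_sum, mul_sum]
    refine sum_le_sum fun b _ => ?_
    refine (Nat.cast_le.2 card_biUnion_le).trans ?_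
    rw [Nat.cast_sum, sq, sum_mul_sum, ← sum_product', mul_sum]
    refine sum_le_sum fun pq _ => ?_
    refine (mult_card88 N (pq.1 * pq.2)).trans (le_of_eq ?_)
    push_cast
    rw [one_div_mul_one_div, mul_one_div]
  have h3 : ((((range K).biUnion fun b => (Pb (y b) (y (b + 1))).biUnion fun p =>
          (MG N (Sy N (y b)) p).image (fun m => p * m)).card : ℕ) : ℝ) ≤ ∑ b ∈ range K, 2 * vb N y b := by
    refine (Nat.cast_le.2 card_biUnion_le).trans ?_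
    rw [Nat.cast_sum]
    refine sum_le_sum fun b _ => ?_
    refine (Nat.cast_le.2 card_biUnion_le).trans ?_
    rw [Nat.cast_sum]
    unfold vb
    rw [mul_div_cancel₀ _ (two_ne_zero)]
    exact sum_le_sum fun p _ => Nat.cast_le.2 card_image_le
  have h4 : ((Pool.Agent.Helper11.RL.Qf N : ℕ) : ℝ) ≤ _ := Nat.cast_le.2 h0
  push_cast at h4
  linarith

private lemma log_floor88 {x : ℝ} (hx : 1 ≤ x) :
    (⌊x⌋₊ : ℝ) ≤ x ∧ Real.log x - Real.log 2 ≤ Real.log (⌊x⌋₊ : ℝ) ∧ 1 ≤ ⌊x⌋₊ ∧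
      Real.log (⌊x⌋₊ : ℝ) ≤ Real.log x := by
  have h1 : (⌊x⌋₊ : ℝ) ≤ x := Nat.floor_le (by linarith)
  have h2 : x < ⌊x⌋₊ + 1 := Nat.lt_floor_add_one x
  have h3 : 1 ≤ ⌊x⌋₊ := by
    rw [Nat.one_le_floor_iff]; exact hx
  have h4 : (1 : ℝ) ≤ ⌊x⌋₊ := by exact_mod_cast h3
  refine ⟨h1, ?_, h3, Real.log_le_log (by linarith) h1⟩
  rw [← Real.log_div (by linarith) (by norm_num)]
  exact Real.log_le_log (by linarith) (by linarith)

theorem vb_ge_of
    (sqf_count : ∃ C : ℝ, 0 < C ∧ ∀ y : ℕ, |(Pool.Agent.Helper11.RL.Qf y : ℝ) - 6 / Real.pi ^ 2 * y| ≤ C * Real.sqrt y)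
    (pb_inv : ∃ C : ℝ, 0 < C ∧ ∀ y y' : ℕ, 2 ≤ y → y ≤ y' →
      ∑ p ∈ Pb y y', (1 : ℝ) / p ≤ (Real.log ((y' : ℝ) / y) + C) / Real.log y)
    (smooth_le : ∃ C : ℝ, 0 < C ∧ ∀ N y : ℕ, 2 ≤ N → 1 ≤ y → y ≤ N →
      ((((Icc 1 N).filter (fun n => Squarefree n ∧ ∀ q ∈ n.primeFactors, q ≤ y)).card : ℕ) : ℝ) ≤
        6 / Real.pi ^ 2 * N * (Real.log y / Real.log N) + C * N / Real.log N)
    (ε : ℝ) (hε : 0 < ε) : ∃ c0 u0 : ℝ, 0 < c0 ∧ c0 < 1 / 2 ∧ 0 < u0 ∧ u0 < 1 / 2 ∧ ∀ c u : ℝ, 0 < c → c ≤ c0 → 0 < u → u ≤ u0 →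
    ∃ η0 : ℝ, 0 < η0 ∧ ∀ (η : ℝ) (K : ℕ), 0 < η → η ≤ η0 → u / 2 ≤ uu c η K 0 → uu c η K 0 ≤ u →
    ∃ N0 : ℕ, ∀ N : ℕ, N0 ≤ N → (6 / Real.pi ^ 2 - ε) * N ≤ ∑ b ∈ range K, 2 * vb N (yb N c η K) b := by
  obtain ⟨C1, hC1, hsqf⟩ := sqf_count
  obtain ⟨C2, hC2, hinv⟩ := pb_inv
  obtain ⟨C3, hC3, hsm⟩ := smooth_le
  refine ⟨min (1 / 4) (ε / 16), min (1 / 4) (ε / 8), by positivity, lt_of_le_of_lt (min_le_left _ _) (by norm_num),
    by positivity, lt_of_le_of_lt (min_le_left _ _) (by norm_num), fun c u hc hc0 hu hu0 => ?_⟩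
  have hc4 : c ≤ 1 / 4 := hc0.trans (min_le_left _ _)
  have hcε : c ≤ ε / 16 := hc0.trans (min_le_right _ _)
  have hu4 : u ≤ 1 / 4 := hu0.trans (min_le_left _ _)
  have huε : u ≤ ε / 8 := hu0.trans (min_le_right _ _)
  refine ⟨ε * u / 144, by positivity, fun η K hη hη0 hK1 hK2 => ?_⟩
  have hl2 : 0 < Real.log 2 := Real.log_pos (by norm_num)
  -- large N
  have hlog : Filter.Tendsto (fun N : ℕ => Real.log (N : ℝ)) Filter.atTop Filter.atTop :=
    Real.tendsto_log_atTop.comp tendsto_natCast_atTop_atTop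
  have hsqrt : Filter.Tendsto (fun N : ℕ => Real.sqrt (N : ℝ)) Filter.atTop Filter.atTop :=
    Real.tendsto_sqrt_atTop.comp tendsto_natCast_atTop_atTop
  obtain ⟨N1, hN1⟩ := Filter.eventually_atTop.1
    ((((hlog.eventually_ge_atTop (4 * Real.log 2)).and (hlog.eventually_ge_atTop (8 * Real.log 2 / u))).and
      ((hlog.eventually_ge_atTop (4 * (Real.log 2 + C2) / (u * η))).and
        (hlog.eventually_ge_atTop (8 * C3 / ε)))).and
      ((hlog.eventually_ge_atTop (16 * (Real.log 2 + C2) / ε)).and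
        (hsqrt.eventually_ge_atTop (8 * C1 / ε))))
  refine ⟨max N1 2, fun N hN => ?_⟩
  have hN2 : 2 ≤ N := (le_max_right _ _).trans hN
  obtain ⟨⟨⟨hL1, hL2⟩, hL3, hL4⟩, hL5, hL6⟩ := hN1 N ((le_max_left _ _).trans hN)
  set L := Real.log (N : ℝ) with hL
  have hLpos : 0 < L := by linarith
  have hNpos : (0 : ℝ) < N := by
    have : (2 : ℝ) ≤ N := by exact_mod_cast hN2
    linarith
  have hN1' : (1 : ℝ) ≤ N := by
    have : (2 : ℝ) ≤ N := by exact_mod_cast hN2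
    linarith
  have h1η : (0 : ℝ) < 1 + η := by linarith
  -- the exponents
  have huu : ∀ b, uu c η K b = uu c η K 0 * (1 + η) ^ b := by
    intro b
    unfold uu
    rw [pow_zero]
    ring
  have huu1 : ∀ b, u / 2 ≤ uu c η K b := by
    intro b
    rw [huu b]
    have : (1 : ℝ) ≤ (1 + η) ^ b := one_le_pow₀ (by linarith)
    nlinarith
  have huuS : ∀ b, uu c η K (b + 1) - uu c η K b = η * uu c η K b := by
    intro b
    rw [huu (b + 1), huu b]
    ring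
  have huuK : uu c η K K = 1 - c := by
    unfold uu
    field_simp
  have hyx : ∀ b, (1 : ℝ) ≤ (N : ℝ) ^ uu c η K b := fun b =>
    Real.one_le_rpow hN1' (by have := huu1 b; linarith)
  have hylog : ∀ b, Real.log ((N : ℝ) ^ uu c η K b) = uu c η K b * L := fun b => Real.log_rpow hNpos _
  have hyfl := fun b => log_floor88 (hyx b)
  -- Kη
  have hKη : (K : ℝ) * η ≤ 2 / u := by
    have h1 := one_add_mul_le_pow (show (-2 : ℝ) ≤ η by linarith) K
    have h2 : (1 + η) ^ K ≤ 2 / u := by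
      have h3 : uu c η K 0 = (1 - c) / (1 + η) ^ K := by unfold uu; rw [pow_zero, mul_one]
      rw [h3, le_div_iff₀ (by positivity)] at hK1
      rw [le_div_iff₀ hu]
      nlinarith
    linarith
  -- the blocks
  have hblock : ∀ b, ∑ p ∈ Pb (yb N c η K b) (yb N c η K (b + 1)), (1 : ℝ) / p ≤ 3 * η := by
    intro b
    obtain ⟨hf1, hf2, hf3, hf4⟩ := hyfl b
    obtain ⟨hg1, hg2, hg3, hg4⟩ := hyfl (b + 1)
    rw [hylog] at hf2 hf4 hg2 hg4
    have hub := huu1 b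
    have hubL : 4 * Real.log 2 ≤ uu c η K b * L := by
      have h1 : 8 * Real.log 2 ≤ L * u := (div_le_iff₀ hu).1 hL2
      nlinarith
    have hy2 : 2 ≤ yb N c η K b := by
      have h1 : Real.log 2 ≤ Real.log (⌊(N : ℝ) ^ uu c η K b⌋₊ : ℝ) := by linarith
      have h2 := (Real.log_le_log_iff (by norm_num) (by exact_mod_cast hf3)).1 h1
      unfold yb
      exact_mod_cast h2
    have hymono : yb N c η K b ≤ yb N c η K (b + 1) := by
      unfold yb
      refine Nat.floor_le_floor (Real.rpow_le_rpow_of_exponent_le hN1' ?_)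
      have := huuS b
      nlinarith
    refine (hinv _ _ hy2 hymono).trans ?_
    have hlogpos : 0 < Real.log (yb N c η K b : ℝ) := Real.log_pos (by exact_mod_cast hy2)
    rw [div_le_iff₀ hlogpos, Real.log_div (by unfold yb; positivity) (by positivity)]
    have h1 : Real.log (yb N c η K (b + 1) : ℝ) ≤ uu c η K (b + 1) * L := hg4
    have h2 : uu c η K b * L - Real.log 2 ≤ Real.log (yb N c η K b : ℝ) := hf2
    have h3 : uu c η K (b + 1) * L = uu c η K b * L + η * (uu c η K b * L) := by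
      have := huuS b
      have h4 : uu c η K (b + 1) = uu c η K b + η * uu c η K b := by linarith
      rw [h4]; ring
    -- goal : log y' - log y + C2 ≤ 3 η log y
    have h5 : 4 * (Real.log 2 + C2) ≤ L * (u * η) := (div_le_iff₀ (by positivity)).1 hL3
    have h6 : 2 * (Real.log 2 + C2) ≤ η * (uu c η K b * L) := by
      have : η * (u / 2 * L) ≤ η * (uu c η K b * L) := by gcongr
      nlinarith
    have h7 : η * Real.log 2 ≤ η * (uu c η K b * L) / 4 := by nlinarith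
    nlinarith
  -- the top
  have htop : ∑ p ∈ Pb (yb N c η K K) N, (1 : ℝ) / p ≤ 2 * c + ε / 8 := by
    obtain ⟨hf1, hf2, hf3, hf4⟩ := hyfl K
    rw [hylog] at hf2
    have hyl : uu c η K K * L - Real.log 2 ≤ Real.log (yb N c η K K : ℝ) := hf2
    rw [huuK] at hyl
    have hyL : L / 2 ≤ Real.log (yb N c η K K : ℝ) := by
      have hcL : c * L ≤ 1 / 4 * L := by gcongr
      linarith
    have hy2 : 2 ≤ yb N c η K K := by
      have h1 : Real.log 2 ≤ Real.log (yb N c η K K : ℝ) := by linarith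
      have h2 := (Real.log_le_log_iff (by norm_num) (by unfold yb; exact_mod_cast hf3)).1 h1
      exact_mod_cast h2
    have hyN : yb N c η K K ≤ N := by
      have h1 : (yb N c η K K : ℝ) ≤ (N : ℝ) ^ (1 - c) := by rw [← huuK]; exact hf1
      have h2 : (N : ℝ) ^ (1 - c) ≤ (N : ℝ) ^ (1 : ℝ) := Real.rpow_le_rpow_of_exponent_le hN1' (by linarith)
      rw [Real.rpow_one] at h2
      exact_mod_cast h1.trans h2
    refine (hinv _ _ hy2 hyN).trans ?_
    have hlogpos : 0 < Real.log (yb N c η K K : ℝ) := by linarith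
    rw [div_le_iff₀ hlogpos, Real.log_div hNpos.ne' (by positivity)]
    have h2 : 16 * (Real.log 2 + C2) ≤ L * ε := (div_le_iff₀ hε).1 hL5
    have h3 : (2 * c + ε / 8) * (L / 2) ≤ (2 * c + ε / 8) * Real.log (yb N c η K K : ℝ) := by gcongr
    have h4 : (2 * c + ε / 8) * (L / 2) = c * L + L * ε / 16 := by ring
    have h5 : (1 - c) * L = L - c * L := by ring
    rw [← hL]
    linarith
  -- the small ones
  have hsmall : ((((Icc 1 N).filter (fun n => Squarefree n ∧ ∀ q ∈ n.primeFactors, q ≤ yb N c η K 0)).card : ℕ) : ℝ) ≤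
      u * N + ε / 8 * N := by
    obtain ⟨hf1, hf2, hf3, hf4⟩ := hyfl 0
    rw [hylog] at hf2 hf4
    have hyN : yb N c η K 0 ≤ N := by
      have h1 : (yb N c η K 0 : ℝ) ≤ (N : ℝ) ^ (uu c η K 0) := hf1
      have h2 : (N : ℝ) ^ (uu c η K 0) ≤ (N : ℝ) ^ (1 : ℝ) := Real.rpow_le_rpow_of_exponent_le hN1' (by linarith)
      rw [Real.rpow_one] at h2
      exact_mod_cast h1.trans h2
    refine (hsm N (yb N c η K 0) hN2 hf3 hyN).trans ?_
    have h1 : Real.log (yb N c η K 0 : ℝ) / Real.log N ≤ u := by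
      rw [div_le_iff₀ hLpos]
      have : Real.log (yb N c η K 0 : ℝ) ≤ uu c η K 0 * L := hf4
      nlinarith
    have h2 : C3 * N / Real.log N ≤ ε / 8 * N := by
      rw [div_le_iff₀ hLpos]
      have : 8 * C3 ≤ L * ε := (div_le_iff₀ hε).1 hL4
      nlinarith
    have h3 : 6 / Real.pi ^ 2 ≤ 1 := by
      rw [div_le_one (by positivity)]
      nlinarith [Real.pi_gt_three]
    have h4 : 0 ≤ Real.log (yb N c η K 0 : ℝ) / Real.log N := by
      refine div_nonneg (Real.log_natCast_nonneg _) hLpos.le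
    have h5 : 6 / Real.pi ^ 2 * N * (Real.log (yb N c η K 0 : ℝ) / Real.log N) ≤ 1 * N * u := by gcongr
    linarith
  -- squarefree numbers
  have hQ := (abs_le.1 (hsqf N)).1
  have hroot : C1 * Real.sqrt N ≤ ε / 8 * N := by
    have h1 : 8 * C1 ≤ Real.sqrt N * ε := (div_le_iff₀ hε).1 hL6
    have h2 : Real.sqrt N * Real.sqrt N = N := Real.mul_self_sqrt hNpos.le
    have h3 := Real.sqrt_nonneg (N : ℝ)
    nlinarith
  have hcount := count88 N K (yb N c η K)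
  have hsum2 : ∑ b ∈ range K, (∑ p ∈ Pb (yb N c η K b) (yb N c η K (b + 1)), (1 : ℝ) / p) ^ 2 ≤ ε / 8 := by
    have h1 : ∀ b ∈ range K, (∑ p ∈ Pb (yb N c η K b) (yb N c η K (b + 1)), (1 : ℝ) / p) ^ 2 ≤ (3 * η) ^ 2 := by
      intro b _
      exact pow_le_pow_left₀ (sum_nonneg fun p _ => by positivity) (hblock b) 2
    refine (sum_le_sum h1).trans ?_
    rw [sum_const, card_range, nsmul_eq_mul]
    have h2 : (K : ℝ) * (3 * η) ^ 2 = 9 * η * (K * η) := by ring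
    rw [h2]
    calc 9 * η * (K * η) ≤ 9 * (ε * u / 144) * (2 / u) := by gcongr
      _ = ε / 8 := by field_simp; ring
  have hA : (N : ℝ) * ∑ p ∈ Pb (yb N c η K K) N, (1 : ℝ) / p ≤ N * (2 * c + ε / 8) := by gcongr
  have hB : (N : ℝ) * ∑ b ∈ range K, (∑ p ∈ Pb (yb N c η K b) (yb N c η K (b + 1)), (1 : ℝ) / p) ^ 2 ≤ N * (ε / 8) := by
    gcongr
  have hC : (N : ℝ) * (2 * c) ≤ N * (ε / 8) := by
    refine mul_le_mul_of_nonneg_left ?_ hNpos.le
    linarith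
  have hD : u * (N : ℝ) ≤ ε / 8 * N := by gcongr
  have hE : 0 ≤ ε * (N : ℝ) := by positivity
  linarith

theorem vb_ge (ε : ℝ) (hε : 0 < ε) : ∃ c0 u0 : ℝ, 0 < c0 ∧ c0 < 1 / 2 ∧ 0 < u0 ∧ u0 < 1 / 2 ∧ ∀ c u : ℝ, 0 < c → c ≤ c0 → 0 < u → u ≤ u0 →
    ∃ η0 : ℝ, 0 < η0 ∧ ∀ (η : ℝ) (K : ℕ), 0 < η → η ≤ η0 → u / 2 ≤ uu c η K 0 → uu c η K 0 ≤ u →
    ∃ N0 : ℕ, ∀ N : ℕ, N0 ≤ N → (6 / Real.pi ^ 2 - ε) * N ≤ ∑ b ∈ range K, 2 * vb N (yb N c η K) b :=
  vb_ge_of sqf_count pb_inv smooth_le ε hε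

end Pool.Agent.Helper51.EA
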